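import Pool.Agent.H48.NLP.Nlp

/-!
# The level of a coordinate over a part of the base

`FewD S B k v p`: the digits of the coordinate `k` to `p J` places are few bits given the record at
`v`, the exact coordinates of `B` and the word. `ilv`: the supremum of these `p`. `Ilv`: the
properties of `ilv` in a class with numbers; `ilv_ex`: each class has such a subclass.
-/

set_option autoImplicit false

namespace Pool.V0F

open Finset Real MvPolynomial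
open Pool.Agent.H49.Ent Pool.Agent.H32.Dense Pool.STK Pool.KA Pool.KSAT Pool.K2S Pool.PB Pool.GEN
open Pool.S6C Pool.GRD Pool.RCD Pool.LA91 Pool.PKG Pool.OWN83
open Pool.TOP (TopS)
open Pool.ONE (lst)
open Pool.UNJ (ceI)

variable {m J : ℕ} {S : PCl m}

/-- The digits of the coordinate `k` to `p J` places. -/
noncomputable abbrev qd (k : Fin m) (p : ℝ) : Qt m ℤ :=
  Qt.fn (fun (J : ℕ) (F : Fam m J) ω => F.X ⌊p * J⌋₊ ω k)

/-- The exact coordinates of `B` and the word. -/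
noncomputable abbrev yB (B : Finset (Fin m)) :
    ∀ (J : ℕ) (F : Fam m J), F.Ω → (Fin m → ℤ) × (ℕ × F.ζ) :=
  fun J F ω => (ceI B (fun _ => J) (F.x ω), F.W ω)

/-- **Few digits.** -/
def FewD (S : PCl m) (B : Finset (Fin m)) (k : Fin m) (v p : ℝ) : Prop :=
  Few0 S (fun J F => ptr F J) (vg v) (yB B) (qd k p)

theorem FewD.sub {S' : PCl m} (hs : ∀ (τ : ℝ) (J : ℕ) (F : Fam m J) (A : F.Ω → Prop),
    S'.St τ J F A → S.St τ J F A) {B : Finset (Fin m)} {k : Fin m} {v p : ℝ}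
    (h : FewD S B k v p) : FewD S' B k v p := Few0.sub hs h

/-- **Changing the number of digits.** -/
theorem ch_gap {F : Fam m J} {q : F.Ω → ℝ} (hq : IsLaw q) (k : Fin m) {a b d : ℕ}
    (h : a ≤ b + d) {T : Type} (Z : F.Ω → T) (hZ : ∀ ω ω', 0 < q ω → 0 < q ω' → Z ω = Z ω' →
      F.X b ω k = F.X b ω' k) :
    CH q (fun ω => F.X a ω k) Z ≤ Real.log 5 + d * Real.log 2 := by
  refine (Pool.OWN68.CH_pair (D := 2 ^ d + 1) hq _ _ fun ω ω' h1 h2 h3 => ?_).trans ?_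
  · have e1 := abs_of_floor (hZ ω ω' h1 h2 h3)
    have e2 : |F.x ω k - F.x ω' k| ≤ 2 ^ d / 2 ^ a := by
      refine e1.trans ?_
      rw [div_le_div_iff₀ (by positivity) (by positivity), one_mul, ← pow_add]
      exact pow_le_pow_right₀ (by norm_num) (by omega)
    have e3 := floor_of_abs (q := a) e2
    have e4 : (2 : ℝ) ^ a * (2 ^ d / 2 ^ a) = ((2 ^ d : ℕ) : ℝ) := by
      push_cast
      field_simp
    rw [e4, Nat.ceil_natCast] at e3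
    exact e3
  · have h2 : (1 : ℝ) ≤ 2 ^ d := one_le_pow₀ (by norm_num)
    calc Real.log (2 * ((2 ^ d + 1 : ℕ) : ℝ) + 1) ≤ Real.log (5 * 2 ^ d) := by
          refine Real.log_le_log (by positivity) ?_
          push_cast
          linarith
      _ = Real.log 5 + d * Real.log 2 := by
          rw [Real.log_mul (by norm_num) (by positivity), Real.log_pow]

/-- The gap of the numbers of places. -/
theorem fl_gap {p p' ε : ℝ} (h : p ≤ p' + ε) (J : ℕ) :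
    ⌊p * J⌋₊ ≤ ⌊p' * J⌋₊ + (⌊ε * J⌋₊ + 1) := by
  have hJ : (0 : ℝ) ≤ J := Nat.cast_nonneg J
  have h1 : p * J ≤ p' * J + ε * J := by nlinarith
  have h2 := Nat.lt_floor_add_one (p' * J)
  have h3 := Nat.lt_floor_add_one (ε * J)
  have h4 : p * J < ((⌊p' * (J : ℝ)⌋₊ + (⌊ε * (J : ℝ)⌋₊ + 1) + 1 : ℕ) : ℝ) := by
    push_cast
    linarith
  by_cases h5 : 0 ≤ p * J
  · have := (Nat.floor_lt h5).2 h4
    omega
  · rw [Nat.floor_of_nonpos (by linarith)]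
    exact Nat.zero_le _

/-- The window gets finer. -/
theorem FewD.up {B : Finset (Fin m)} {k : Fin m} {v v' p : ℝ} (hv : v ≤ v') (hv' : v' ≤ 1)
    (h : FewD S B k v p) : FewD S B k v' p := by
  intro c hc
  obtain ⟨e, he, H⟩ := h c hc
  refine ⟨e, he, fun K => Bas.mono 0 (H K) ?_⟩
  rintro J - F A H u hu
  obtain ⟨V, z, hz, h1⟩ := H u hu
  obtain ⟨ψ, hψ⟩ := vg_mono hv hv' J F
  exact ⟨V, z, hz.mono ⟨fun x => x, fun ω _ => rfl⟩ ⟨ψ, fun ω _ => hψ ω⟩, h1⟩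

/-- More coordinates in the condition. -/
theorem FewD.more (hpos : ∀ (τ : ℝ) (J : ℕ) (F : Fam m J) (A : F.Ω → Prop), S.St τ J F A →
    0 < Pe F.p A) {B B' : Finset (Fin m)} {k : Fin m} {v p : ℝ} (hB : B ⊆ B')
    (h : FewD S B k v p) : FewD S B' k v p := by
  intro c hc
  obtain ⟨e, he, H⟩ := h c hc
  refine ⟨e, he, fun K => Bas.mono 0 ((H K).and (pos_bas hpos)) ?_⟩
  rintro J - F A ⟨H, hA⟩ u hu
  obtain ⟨V, z, hz, h1⟩ := H u hu
  refine ⟨V, z, hz, le_trans (CH_mono_cond (isLaw_cond F.isLaw hA).nonneg fun ω ω' _ _ hh => ?_)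
    h1⟩
  simp only [Prod.mk.injEq] at hh ⊢
  refine ⟨hh.1, ?_, hh.2.2⟩
  funext i
  have h2 := congrFun hh.2.1 i
  unfold ceI at h2 ⊢
  by_cases hi : i ∈ B
  · rw [if_pos (hB hi), if_pos (hB hi)] at h2
    rw [if_pos hi, if_pos hi, h2]
  · rw [if_neg hi, if_neg hi]

/-- **The supremum.** -/
theorem FewD.sup (hpos : ∀ (τ : ℝ) (J : ℕ) (F : Fam m J) (A : F.Ω → Prop), S.St τ J F A →
    0 < Pe F.p A) {B : Finset (Fin m)} {k : Fin m} {v p : ℝ}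
    (h : ∀ ε : ℝ, 0 < ε → ∃ p', p ≤ p' + ε ∧ FewD S B k v p') : FewD S B k v p := by
  intro c hc
  have hl2 : 0 < Real.log 2 := Real.log_pos one_lt_two
  have hl2' : Real.log 2 ≤ 1 := by
    have := Real.log_le_sub_one_of_pos (show (0 : ℝ) < 2 by norm_num)
    linarith
  obtain ⟨p', hp, hf⟩ := h (c / 4) (by linarith)
  obtain ⟨e, he, H⟩ := hf (c / 4) (by linarith)
  obtain ⟨J₁, hJ₁⟩ := exists_nat_ge ((Real.log 5 + 1) / (c / 4))
  refine ⟨e, he, fun K => Bas.mono J₁ ((H K).and (pos_bas hpos)) ?_⟩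
  rintro J hJ F A ⟨H, hA⟩ u hu
  have hJ0 : (0 : ℝ) ≤ J := Nat.cast_nonneg J
  have hq := isLaw_cond F.isLaw hA
  obtain ⟨V, z, hz, h1⟩ := H (fun ω => F.X ⌊p' * J⌋₊ ω k) (fun ω _ => rfl)
  refine ⟨V, z, hz, ?_⟩
  have h2 := CH_le_add hq.nonneg u (fun ω => F.X ⌊p' * J⌋₊ ω k) (fun ω => (z ω, yB B J F ω))
  have h3 : CH (Pool.Agent.H49.Ent.cond F.p A True) u
      (fun ω => (F.X ⌊p' * J⌋₊ ω k, (z ω, yB B J F ω))) ≤
      CH (Pool.Agent.H49.Ent.cond F.p A True) (fun ω => F.X ⌊p * J⌋₊ ω k)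
        (fun ω => (F.X ⌊p' * J⌋₊ ω k, (z ω, yB B J F ω))) := by
    refine le_of_eq (CH_congr hq.nonneg (fun ω ω' a b hh => ?_) (fun ω ω' a b hh => ?_)
      (fun _ _ _ _ hh => hh) fun _ _ _ _ hh => hh)
    · have h8 : u ω = u ω' := (Prod.ext_iff.1 hh).1
      rw [hu ω (of_cond_pos a), hu ω' (of_cond_pos b)] at h8
      exact h8
    · have h8 : F.X ⌊p * J⌋₊ ω k = F.X ⌊p * J⌋₊ ω' k := (Prod.ext_iff.1 hh).1
      rw [hu ω (of_cond_pos a), hu ω' (of_cond_pos b)]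
      exact h8
  have h4 := ch_gap hq k (fl_gap hp J)
    (fun ω => (F.X ⌊p' * J⌋₊ ω k, (z ω, yB B J F ω))) (fun ω ω' _ _ hh => (Prod.ext_iff.1 hh).1)
  have h5 : ((⌊c / 4 * (J : ℝ)⌋₊ + 1 : ℕ) : ℝ) * Real.log 2 ≤ c / 4 * J + 1 := by
    have h6 := Nat.floor_le (show 0 ≤ c / 4 * (J : ℝ) by positivity)
    push_cast
    nlinarith
  have h7 : Real.log 5 + 1 ≤ c / 4 * J := by
    have h8 : (J₁ : ℝ) ≤ J := by exact_mod_cast hJ
    have h9 := hJ₁.trans h8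
    rw [div_le_iff₀ (by linarith)] at h9
    linarith
  have h10 : 0 ≤ c / 4 * J := by positivity
  linarith

theorem FewD.le (hpos : ∀ (τ : ℝ) (J : ℕ) (F : Fam m J) (A : F.Ω → Prop), S.St τ J F A →
    0 < Pe F.p A) {B : Finset (Fin m)} {k : Fin m} {v p p' : ℝ} (hp : p' ≤ p)
    (h : FewD S B k v p) : FewD S B k v p' :=
  FewD.sup hpos fun ε hε => ⟨p, by linarith, h⟩

/-- The number is zero. -/
theorem FewD.of_nn (hpos : ∀ (τ : ℝ) (J : ℕ) (F : Fam m J) (A : F.Ω → Prop), S.St τ J F A →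
    0 < Pe F.p A) {B : Finset (Fin m)} {k : Fin m} {v p θ η : ℝ}
    (hη : RNum S (fun J F => ptr F J) (vg v) η)
    (N : NN S (fun J F => ptr F J) (vg v) (yB B) (qd k p) θ) (hθ : θ ≤ 0) : FewD S B k v p := by
  intro c hc
  obtain ⟨kk, hk, e, he, H⟩ := N c hc
  refine ⟨e, he, fun K => Bas.mono 0 ((H K).and (mx_ex hpos hη kk hk)) ?_⟩
  rintro J - F A ⟨H, V, z, hz⟩ u hu
  refine ⟨V, z, hz.1, ?_⟩
  have h1 := (abs_le.1 (H V z hz u hu)).2
  have hJ0 : (0 : ℝ) ≤ J := Nat.cast_nonneg J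
  have h2 : θ * J ≤ 0 := mul_nonpos_of_nonpos_of_nonneg hθ hJ0
  linarith

/-- The number of few digits is zero. -/
theorem FewD.nn (hS : S.Ne) (hpos : ∀ (τ : ℝ) (J : ℕ) (F : Fam m J) (A : F.Ω → Prop),
    S.St τ J F A → 0 < Pe F.p A) {B : Finset (Fin m)} {k : Fin m} {v p θ η : ℝ}
    (hη : RNum S (fun J F => ptr F J) (vg v) η)
    (N : NN S (fun J F => ptr F J) (vg v) (yB B) (qd k p) θ) (h : FewD S B k v p) : θ ≤ 0 := by
  refine le_of_bas hS fun ε hε => ?_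
  obtain ⟨kk, hk, e, he, H⟩ := N (ε / 2) (half_pos hε)
  obtain ⟨e', he', H'⟩ := Few0.mx hpos h (ε / 2) (half_pos hε)
  refine Bas.mono 0 (((H 0).and (H' 0)).and (mx_ex hpos hη (min kk (ε / 2 / 2))
    (lt_min hk (by positivity)))) ?_
  rintro J - F A ⟨⟨H, H'⟩, V, z, hz⟩
  have hJ0 : (0 : ℝ) ≤ J := Nat.cast_nonneg J
  have hz1 : Mx (fun J F => ptr F J) (vg v) kk F A z := ⟨hz.1, fun V' z' hz' =>
    (hz.2 V' z' hz').trans (mul_le_mul_of_nonneg_right (min_le_left _ _) hJ0)⟩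
  have hz2 : Mx (fun J F => ptr F J) (vg v) (ε / 2 / 2) F A z := ⟨hz.1, fun V' z' hz' =>
    (hz.2 V' z' hz').trans (mul_le_mul_of_nonneg_right (min_le_right _ _) hJ0)⟩
  have h1 := (abs_le.1 (H V z hz1 (fun ω => F.X ⌊p * J⌋₊ ω k) fun ω _ => rfl)).1
  have h2 := H' V z hz2 (fun ω => F.X ⌊p * J⌋₊ ω k) fun ω _ => rfl
  linarith

open Classical in
/-- **The level** of the coordinate `k` over the exact coordinates of `B` at the window `v`. -/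
noncomputable def ilv (S : PCl m) (B : Finset (Fin m)) (k : Fin m) (v : ℝ) : ℝ :=
  sSup {p : ℝ | 0 ≤ p ∧ p ≤ 1 ∧ FewD S B k v p}

/-- **The levels of a class** `S`, the same for all its subclasses. -/
structure Ilv (S : PCl m) (I : Finset (Fin m) → Fin m → ℝ → ℝ) : Prop where
  ge0 : ∀ B k v, 0 ≤ I B k v
  le1 : ∀ B k v, I B k v ≤ 1
  mono : ∀ B k v v', v ≤ v' → v' ≤ 1 → I B k v ≤ I B k v'
  own : ∀ B k v, FewD S B k v (I B k v)
  max : ∀ S' : PCl m, S'.Ne → (∀ (τ : ℝ) (J : ℕ) (F : Fam m J) (A : F.Ω → Prop),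
    S'.St τ J F A → S.St τ J F A) → ∀ B k (v : ℚ) (p : ℝ), 0 ≤ p → p ≤ 1 → FewD S' B k v p →
    p ≤ I B k v

theorem Ilv.sub {S' : PCl m} (hs : ∀ (τ : ℝ) (J : ℕ) (F : Fam m J) (A : F.Ω → Prop),
    S'.St τ J F A → S.St τ J F A) {I : Finset (Fin m) → Fin m → ℝ → ℝ} (h : Ilv S I) :
    Ilv S' I where
  ge0 := h.ge0
  le1 := h.le1
  mono := h.mono
  own B k v := (h.own B k v).sub hs
  max S'' hne hs'' := h.max S'' hne fun τ J F A h1 => hs τ J F A (hs'' τ J F A h1)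

/-- **Each class has a subclass with levels.** -/
theorem ilv_ex (hS : S.Ne)
    (hpos : ∀ (τ : ℝ) (J : ℕ) (F : Fam m J) (A : F.Ω → Prop), S.St τ J F A → 0 < Pe F.p A)
    {M : ℝ} (hM : Bas S (fun J F A => (cnt F.p (ptr F J) A : ℝ) ≤ Real.exp (M * J)))
    (hx : ∀ (τ : ℝ) (J : ℕ) (F : Fam m J) (A : F.Ω → Prop), S.St τ J F A → ∀ ω k,
      |F.x ω k| ≤ 2) {η : ℚ → ℝ}
    (hη : ∀ w : ℚ, RNum S (fun J F => ptr F J) (vg (w : ℝ)) (η w)) :
    ∃ (S' : PCl m) (I : Finset (Fin m) → Fin m → ℝ → ℝ), S'.Ne ∧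
      (∀ (τ : ℝ) (J : ℕ) (F : Fam m J) (A : F.Ω → Prop), S'.St τ J F A → S.St τ J F A) ∧
      Ilv S' I := by
  classical
  obtain ⟨S', c1, c2, c3⟩ := nn_ext_ct (ι := {x : Finset (Fin m) × Fin m × ℚ × ℚ // x.2.2.2 ≤ 1})
    hS hpos (fun _ => ℤ) (fun _ J F => PtT F) (fun _ J F => LnT F)
    (fun _ J F => (Fin m → ℤ) × (ℕ × F.ζ)) (fun _ J F => ptr F J)
    (fun x => vg ((x.1.2.2.1 : ℚ) : ℝ)) (fun x => yB x.1.1)
    (fun x => qd x.1.2.1 ((x.1.2.2.2 : ℚ) : ℝ))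
    (fun x => exs_X hM (by exact_mod_cast x.2)) (fun x => few_fn hpos le_rfl)
  choose θ hθ using c3
  have hpos' : ∀ (τ : ℝ) (J : ℕ) (F : Fam m J) (A : F.Ω → Prop), S'.St τ J F A → 0 < Pe F.p A :=
    fun τ J F A h => hpos τ J F A (c2 τ J F A h)
  have hbd : ∀ B k v, BddAbove {p : ℝ | 0 ≤ p ∧ p ≤ 1 ∧ FewD S' B k v p} := fun B k v =>
    ⟨1, fun p hp => hp.2.1⟩
  have h0 : ∀ B k v, (0 : ℝ) ∈ {p : ℝ | 0 ≤ p ∧ p ≤ 1 ∧ FewD S' B k v p} := fun B k v =>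
    ⟨le_rfl, zero_le_one, few0_zero hpos' fun τ J F A h ω => hx τ J F A (c2 τ J F A h) ω k⟩
  refine ⟨S', ilv S', c1, c2, fun B k v => le_csSup (hbd B k v) (h0 B k v), fun B k v =>
    csSup_le ⟨0, h0 B k v⟩ fun p hp => hp.2.1, fun B k v v' h1 h2 => ?_, fun B k v => ?_,
    fun S'' hne hs B k v p hp0 hp1 hF => ?_⟩
  · exact csSup_le_csSup (hbd B k v') ⟨0, h0 B k v⟩ fun p hp =>
      ⟨hp.1, hp.2.1, hp.2.2.up h1 h2⟩
  · refine FewD.sup hpos' fun ε hε => ?_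
    obtain ⟨p, hp, h1⟩ := exists_lt_of_lt_csSup ⟨0, h0 B k v⟩
      (show sSup {p : ℝ | 0 ≤ p ∧ p ≤ 1 ∧ FewD S' B k v p} - ε <
        sSup {p : ℝ | 0 ≤ p ∧ p ≤ 1 ∧ FewD S' B k v p} by linarith)
    exact ⟨p, by
      show sSup {p : ℝ | 0 ≤ p ∧ p ≤ 1 ∧ FewD S' B k v p} ≤ p + ε
      linarith, hp.2.2⟩
  · have hs2 : ∀ (τ : ℝ) (J : ℕ) (F : Fam m J) (A : F.Ω → Prop), S''.St τ J F A →
        0 < Pe F.p A := fun τ J F A h => hpos' τ J F A (hs τ J F A h)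
    refine le_of_forall_pos_le_add fun ε hε => ?_
    rcases lt_or_ge p ε with h1 | h1
    · have h2 := le_csSup (hbd B k v) (h0 B k v)
      change p ≤ sSup {p : ℝ | 0 ≤ p ∧ p ≤ 1 ∧ FewD S' B k v p} + ε
      linarith
    · obtain ⟨p', h2, h3⟩ := exists_rat_btwn (show p - ε < p by linarith)
      have h4 : (p' : ℝ) ≤ 1 := by linarith
      have hNN := hθ ⟨(B, k, v, p'), by exact_mod_cast h4⟩
      have h5 : θ ⟨(B, k, v, p'), by exact_mod_cast h4⟩ ≤ 0 :=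
        FewD.nn hne hs2 (((hη v).sub c2).sub hs) (hNN.sub hs) (hF.le hs2 h3.le)
      have h6 : FewD S' B k v p' := FewD.of_nn hpos' ((hη v).sub c2) hNN h5
      have h7 : (p' : ℝ) ≤ ilv S' B k v := le_csSup (hbd B k v) ⟨by linarith, h4, h6⟩
      linarith

/-- **Labels** in any subclass bound the level from below. -/
theorem Ilv.lab {I : Finset (Fin m) → Fin m → ℝ → ℝ} (h : Ilv S I) {S' : PCl m} (hne : S'.Ne)
    (hs : ∀ (τ : ℝ) (J : ℕ) (F : Fam m J) (A : F.Ω → Prop), S'.St τ J F A → S.St τ J F A)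
    (hpos : ∀ (τ : ℝ) (J : ℕ) (F : Fam m J) (A : F.Ω → Prop), S'.St τ J F A → 0 < Pe F.p A)
    {B : Finset (Fin m)} {k : Fin m} {v' p : ℝ} {v : ℚ} (hv' : v' ≤ v) (hv : (v : ℝ) ≤ 1)
    (hp0 : 0 ≤ p) (hp1 : p ≤ 1) (hl : LbG S' B k v' p) : p ≤ I B k v :=
  h.max S' hne hs B k v p hp0 hp1 (few0_X hpos hl hv' hv hp0)

end Pool.V0F
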