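import Pool.Agent.H3.V0F.Nla

/-!
# No look-ahead for a pair of coordinates over a part of the base

`NlpAt`: given the exact positions of the coordinates of `B`, the record at `v` does not see the
digits of the pair `(k₁, k₂)` behind its natural ones. `nlp_cls`: it holds at almost every window in
a subclass, for countably many pairs at once, if the labels of `k₁` and `k₂` over `B` exist at all
windows of a closed set.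
-/

set_option autoImplicit false

namespace Pool.V0F

open Finset Real MvPolynomial
open Pool.Agent.H49.Ent Pool.Agent.H32.Dense Pool.STK Pool.KA Pool.KSAT Pool.K2S Pool.PB Pool.GEN
open Pool.S6C Pool.GRD Pool.RCD Pool.LA91 Pool.PKG Pool.OWN83
open Pool.TOP (TopS)
open Pool.ONE (lst)
open Pool.UNJ (ceI)

variable {m : ℕ} {S : PCl m}

/-- **No look-ahead for the pair** `(k₁, k₂)` over the exact positions of `B`, at all windows in the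
box of radius `ρ` around `x`. -/
def NlpAt {m : ℕ} (S : PCl m) (B : Finset (Fin m)) (k₁ k₂ : Fin m) (Λ₁ Λ₂ : ℝ → ℝ)
    (x ρ e : ℝ) : Prop :=
  ∀ w v o : ℚ, x - ρ ≤ w → w ≤ v → v ≤ o → (o : ℝ) ≤ x + ρ → ∃ κ : ℝ, 0 < κ ∧
    Bas S (fun J F A => ∀ (V : Type) (z : F.Ω → V) (V' : Type) (z' : F.Ω → V'),
      Mx (fun J F => ptr F J) (vg (w : ℝ)) κ F A z → Mx (fun J F => ptr F J) (vg (v : ℝ)) κ F A z' →
      CH (Pool.Agent.H49.Ent.cond F.p A True)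
          (fun ω => (F.X ⌊Λ₁ o * J⌋₊ ω k₁, F.X ⌊Λ₂ o * J⌋₊ ω k₂))
          (fun ω => ((F.X ⌊Λ₁ v * J⌋₊ ω k₁, F.X ⌊Λ₂ v * J⌋₊ ω k₂),
            (z ω, (ceI B (fun _ => J) (F.x ω), F.W ω)))) ≤
        CH (Pool.Agent.H49.Ent.cond F.p A True)
          (fun ω => (F.X ⌊Λ₁ o * J⌋₊ ω k₁, F.X ⌊Λ₂ o * J⌋₊ ω k₂))
          (fun ω => (z' ω, (ceI B (fun _ => J) (F.x ω), F.W ω))) + e * ρ * J)

theorem NlpAt.sub {S S' : PCl m} (hs : ∀ (τ : ℝ) (J : ℕ) (F : Fam m J) (A : F.Ω → Prop),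
    S'.St τ J F A → S.St τ J F A) {B : Finset (Fin m)} {k₁ k₂ : Fin m} {Λ₁ Λ₂ : ℝ → ℝ}
    {x ρ e : ℝ} (h : NlpAt S B k₁ k₂ Λ₁ Λ₂ x ρ e) : NlpAt S' B k₁ k₂ Λ₁ Λ₂ x ρ e := by
  intro w v o h1 h2 h3 h4
  obtain ⟨κ', hκ, H⟩ := h w v o h1 h2 h3 h4
  exact ⟨κ', hκ, H.sub hs⟩

/-- A larger error. -/
theorem NlpAt.mono {B : Finset (Fin m)} {k₁ k₂ : Fin m} {Λ₁ Λ₂ : ℝ → ℝ}
    {x ρ e e' : ℝ} (h : NlpAt S B k₁ k₂ Λ₁ Λ₂ x ρ e) (hρ : 0 ≤ ρ) (he : e ≤ e') :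
    NlpAt S B k₁ k₂ Λ₁ Λ₂ x ρ e' := by
  intro w v o h1 h2 h3 h4
  obtain ⟨κ', hκ, H⟩ := h w v o h1 h2 h3 h4
  refine ⟨κ', hκ, Bas.mono 0 H ?_⟩
  intro J _ F A hb V z V' z' hz hz'
  refine (hb V z V' z' hz hz').trans ?_
  have hJ0 : (0 : ℝ) ≤ J := Nat.cast_nonneg J
  exact add_le_add le_rfl (mul_le_mul_of_nonneg_right (mul_le_mul_of_nonneg_right he hρ) hJ0)

/-- **The data of a pair**: the levels are those of a family of labels at the windows of `G`. -/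
structure PrL (S : PCl m) (B : Finset (Fin m)) (k : Fin m) (P : ℝ → ℝ → ℝ) (G : Set ℝ) :
    Prop where
  law : Pool.LEV.Law P
  low : ∀ w, 0 ≤ w → w ≤ 1 → 0 ≤ P w w
  up : ∀ w, 0 ≤ w → w ≤ 1 → P w w ≤ 1
  lab : ∀ w ∈ G, LbG S B k w (P w w)

theorem PrL.sub {S S' : PCl m} (hs : ∀ (τ : ℝ) (J : ℕ) (F : Fam m J) (A : F.Ω → Prop),
    S'.St τ J F A → S.St τ J F A) {B : Finset (Fin m)} {k : Fin m} {P : ℝ → ℝ → ℝ} {G : Set ℝ}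
    (h : PrL S B k P G) : PrL S' B k P G :=
  ⟨h.law, h.low, h.up, fun w hw => (h.lab w hw).sub hs⟩

/-- **(NLP)** No look-ahead for countably many pairs at almost every window, in one subclass. -/
theorem nlp_cls {ι : Type} [Countable ι] (hS : S.Ne)
    (hpos : ∀ (τ : ℝ) (J : ℕ) (F : Fam m J) (A : F.Ω → Prop), S.St τ J F A → 0 < Pe F.p A)
    {M : ℝ} (hM : Bas S (fun J F A => (cnt F.p (ptr F J) A : ℝ) ≤ Real.exp (M * J)))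
    {G : Set ℝ} (hG : IsClosed G) (B : ι → Finset (Fin m)) (k₁ k₂ : ι → Fin m)
    (hx : ∀ i, ∀ (τ : ℝ) (J : ℕ) (F : Fam m J) (A : F.Ω → Prop), S.St τ J F A → ∀ ω,
      |F.x ω (k₁ i)| ≤ 2 ∧ |F.x ω (k₂ i)| ≤ 2)
    (P₁ P₂ : ι → ℝ → ℝ → ℝ) (h₁ : ∀ i, PrL S (B i) (k₁ i) (P₁ i) G)
    (h₂ : ∀ i, PrL S (B i) (k₂ i) (P₂ i) G) :
    ∃ S' : PCl m, S'.Ne ∧
      (∀ (τ : ℝ) (J : ℕ) (F : Fam m J) (A : F.Ω → Prop), S'.St τ J F A → S.St τ J F A) ∧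
      ∀ᵐ g : ℝ, 0 < g → g < 1 → ∀ (i : ι) (p : ℕ), ∃ k₀ : ℕ, ∀ ρ : ℝ, 0 < ρ →
        ρ ≤ (1 / 2) ^ k₀ → NlpAt S' (B i) (k₁ i) (k₂ i) (lh (P₁ i) G) (lh (P₂ i) G) g ρ
          (1 / (p + 1)) := by
  obtain ⟨S₁, a1, a2, η, hη⟩ := rnum_ptr hS hpos hM
  have hpos₁ : ∀ (τ : ℝ) (J : ℕ) (F : Fam m J) (A : F.Ω → Prop), S₁.St τ J F A → 0 < Pe F.p A :=
    fun τ J F A h => hpos τ J F A (a2 τ J F A h)
  have htp : ∀ i, TwoParS S₁ (fun J F => ptr F J)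
      (fun J F ω => (ceI (B i) (fun _ => J) (F.x ω), F.W ω)) 0
      (fun _ o => (Qt.fn (fun J F ω => F.X ⌊lh (P₁ i) G o * J⌋₊ ω (k₁ i))).prod
        (Qt.fn (fun J F ω => F.X ⌊lh (P₂ i) G o * J⌋₊ ω (k₂ i)))) 0 1 1 := fun i =>
    (two_par hpos₁ (hM.sub a2) (fun τ J F A h ω => (hx i τ J F A (a2 τ J F A h) ω).1) hG
      (h₁ i).law (h₁ i).low (h₁ i).up fun w hw => ((h₁ i).lab w hw).sub a2).prod hpos₁
    (two_par hpos₁ (hM.sub a2) (fun τ J F A h ω => (hx i τ J F A (a2 τ J F A h) ω).2) hG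
      (h₂ i).law (h₂ i).low (h₂ i).up fun w hw => ((h₂ i).lab w hw).sub a2)
  obtain ⟨S', c1, c2, c3⟩ := la_clsS (ι := ι) a1 hpos₁ (fun _ => ℤ × ℤ)
    (fun _ J F => PtT F) (fun _ J F => (Fin m → ℤ) × (ℕ × F.ζ)) (fun _ J F => ptr F J)
    (fun i J F ω => (ceI (B i) (fun _ => J) (F.x ω), F.W ω)) (fun _ => 0)
    (fun i _ o => (Qt.fn (fun J F ω => F.X ⌊lh (P₁ i) G o * J⌋₊ ω (k₁ i))).prod
      (Qt.fn (fun J F ω => F.X ⌊lh (P₂ i) G o * J⌋₊ ω (k₂ i)))) (fun _ => 0) (fun _ => 1)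
    (fun _ => 1) htp
  have hpos' : ∀ (τ : ℝ) (J : ℕ) (F : Fam m J) (A : F.Ω → Prop), S'.St τ J F A → 0 < Pe F.p A :=
    fun τ J F A h => hpos₁ τ J F A (c2 τ J F A h)
  refine ⟨S', c1, fun τ J F A h => a2 τ J F A (c2 τ J F A h), ?_⟩
  choose θ hθ using c3
  have hae : ∀ i, _ := fun i => (hθ i).ae c1 hpos' (by norm_num) one_pos (fun w _ _ => ⟨η w, by
    rw [add_zero]
    exact (hη w).sub c2⟩) ((htp i).sub c2)
  filter_upwards [MeasureTheory.ae_all_iff.2 hae] with g h1 hg0 hg1 i p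
  obtain ⟨r₀, hr₀, h2⟩ := h1 i ⟨hg0, hg1⟩ (1 / (2 * ((p : ℝ) + 1))) (by positivity)
  obtain ⟨k₀, hk₀⟩ := exists_pow_lt_of_lt_one (show 0 < min r₀ (min g (1 - g)) from
    lt_min hr₀ (lt_min hg0 (by linarith))) (show (1 / 2 : ℝ) < 1 by norm_num)
  refine ⟨k₀, fun ρ hρ hρ1 w v o' w1 w2 w3 w4 => ?_⟩
  have e1 : ρ < r₀ := (hρ1.trans_lt hk₀).trans_le (min_le_left _ _)
  have e2 : ρ < g := (hρ1.trans_lt hk₀).trans_le ((min_le_right _ _).trans (min_le_left _ _))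
  have e3 : ρ < 1 - g := (hρ1.trans_lt hk₀).trans_le ((min_le_right _ _).trans (min_le_right _ _))
  have h3 := h2 ρ hρ e1 w v o' w1 w2 w3 w4
  have hw0 : (0 : ℝ) < w := by linarith
  have ho1 : (o' : ℝ) < 1 := by linarith
  obtain ⟨κ', hκ, e₀, he₀, hla⟩ := ((htp i).sub c2).la hpos' (hθ i) hw0 w2 w3 ho1 (by linarith)
    (1 / (2 * ((p : ℝ) + 1)) * ρ) (by positivity)
  refine ⟨κ', hκ, Bas.mono 0 (hla 0) ?_⟩
  intro J _ F' A hb V z V' z' hz hz'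
  have hJ0 : (0 : ℝ) ≤ J := Nat.cast_nonneg J
  rw [add_zero] at hb
  rw [add_zero] at hb
  have h5 := hb V z V' z' hz hz' (fun ω => (F'.X ⌊lh (P₁ i) G o' * J⌋₊ ω (k₁ i),
      F'.X ⌊lh (P₂ i) G o' * J⌋₊ ω (k₂ i)))
    (fun ω => (F'.X ⌊lh (P₁ i) G v * J⌋₊ ω (k₁ i), F'.X ⌊lh (P₂ i) G v * J⌋₊ ω (k₂ i)))
    ⟨fun ω _ => rfl, fun ω _ => rfl⟩ ⟨fun ω _ => rfl, fun ω _ => rfl⟩
  refine h5.trans ?_
  refine add_le_add le_rfl (mul_le_mul_of_nonneg_right ?_ hJ0)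
  have e4 : (1 : ℝ) / (p + 1) * ρ = 1 / (2 * ((p : ℝ) + 1)) * ρ + 1 / (2 * ((p : ℝ) + 1)) * ρ := by
    field_simp
    ring
  rw [e4]
  linarith

end Pool.V0F
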