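import Pool.Agent.H48.NLP.Ilv

/-!
# No look-ahead for pairs of coordinates as a property of a window

`NlpQ`: for all sets `B` of coordinates and all pairs of places, no look-ahead for the pair over the
exact coordinates of `B`, with the levels `min (ilv B i) (lh (L i) G)`. `t_nlp`: it holds at almost
every window. `NlpAt.use`: other levels.
-/

set_option autoImplicit false

namespace Pool.V0F

open Finset Real MvPolynomial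
open Pool.Agent.H49.Ent Pool.Agent.H32.Dense Pool.STK Pool.KA Pool.KSAT Pool.K2S Pool.PB Pool.GEN
open Pool.S6C Pool.GRD Pool.RCD Pool.LA91 Pool.PKG Pool.OWN83
open Pool.TOP (TopS)
open Pool.ONE (lst)
open Pool.UNJ (ceI)

variable {m : ℕ} {S : PCl m}

/-- **The digits to increasing levels** below the level of the class are a two-parameter family. -/
theorem two_parI {M : ℝ} {k : Fin m} {B : Finset (Fin m)} {I : Finset (Fin m) → Fin m → ℝ → ℝ}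
    (hpos : ∀ (τ : ℝ) (J : ℕ) (F : Fam m J) (A : F.Ω → Prop), S.St τ J F A → 0 < Pe F.p A)
    (hM : Bas S (fun J F A => (cnt F.p (ptr F J) A : ℝ) ≤ Real.exp (M * J))) (hI : Ilv S I)
    {Λ : ℝ → ℝ} (hmono : ∀ x y, x ≤ y → y ≤ 1 → Λ x ≤ Λ y) (hle : ∀ v, Λ v ≤ I B k v) :
    TwoParS S (fun J F => ptr F J) (yB B) 0 (fun _ o => qd k (Λ o)) 0 1 1 where
  exs _ o _ _ _ _ := exs_X hM ((hle o).trans (hI.le1 _ _ _))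
  row _ v o _ _ h3 h4 _ := few_fn hpos (hmono _ _ (by exact_mod_cast h3) h4.le)
  chg _ v o _ _ _ _ _ := few_fn hpos le_rfl
  own w v _ _ h3 _ := by
    rw [add_zero]
    exact (hI.own B k v).le hpos (hle v)

/-- **(NLP)** No look-ahead for countably many pairs at almost every window, in one subclass. -/
theorem nlq_cls {ι : Type} [Countable ι] (hS : S.Ne)
    (hpos : ∀ (τ : ℝ) (J : ℕ) (F : Fam m J) (A : F.Ω → Prop), S.St τ J F A → 0 < Pe F.p A)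
    {η : ℚ → ℝ} (hη : ∀ w : ℚ, RNum S (fun J F => ptr F J) (vg (w : ℝ)) (η w))
    (B : ι → Finset (Fin m)) (k₁ k₂ : ι → Fin m) (Λ₁ Λ₂ : ι → ℝ → ℝ)
    (h₁ : ∀ i, TwoParS S (fun J F => ptr F J) (yB (B i)) 0 (fun _ o => qd (k₁ i) (Λ₁ i o)) 0 1 1)
    (h₂ : ∀ i, TwoParS S (fun J F => ptr F J) (yB (B i)) 0 (fun _ o => qd (k₂ i) (Λ₂ i o)) 0 1 1) :
    ∃ S' : PCl m, S'.Ne ∧
      (∀ (τ : ℝ) (J : ℕ) (F : Fam m J) (A : F.Ω → Prop), S'.St τ J F A → S.St τ J F A) ∧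
      ∀ᵐ g : ℝ, 0 < g → g < 1 → ∀ (i : ι) (p : ℕ), ∃ k₀ : ℕ, ∀ ρ : ℝ, 0 < ρ →
        ρ ≤ (1 / 2) ^ k₀ → NlpAt S' (B i) (k₁ i) (k₂ i) (Λ₁ i) (Λ₂ i) g ρ (1 / (p + 1)) := by
  have htp : ∀ i, TwoParS S (fun J F => ptr F J) (yB (B i)) 0
      (fun _ o => (qd (k₁ i) (Λ₁ i o)).prod (qd (k₂ i) (Λ₂ i o))) 0 1 1 := fun i =>
    (h₁ i).prod hpos (h₂ i)
  obtain ⟨S', c1, c2, c3⟩ := la_clsS (ι := ι) hS hpos (fun _ => ℤ × ℤ)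
    (fun _ J F => PtT F) (fun _ J F => (Fin m → ℤ) × (ℕ × F.ζ)) (fun _ J F => ptr F J)
    (fun i => yB (B i)) (fun _ => 0)
    (fun i _ o => (qd (k₁ i) (Λ₁ i o)).prod (qd (k₂ i) (Λ₂ i o))) (fun _ => 0) (fun _ => 1)
    (fun _ => 1) htp
  have hpos' : ∀ (τ : ℝ) (J : ℕ) (F : Fam m J) (A : F.Ω → Prop), S'.St τ J F A → 0 < Pe F.p A :=
    fun τ J F A h => hpos τ J F A (c2 τ J F A h)
  refine ⟨S', c1, c2, ?_⟩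
  choose θ hθ using c3
  have hae : ∀ i, _ := fun i => (hθ i).ae c1 hpos' (by norm_num) one_pos (fun w _ _ => ⟨η w, by
    rw [add_zero]
    exact (hη w).sub c2⟩) ((htp i).sub c2)
  filter_upwards [MeasureTheory.ae_all_iff.2 hae] with g h1 hg0 hg1 i p
  obtain ⟨r₀, hr₀, h2⟩ := h1 i ⟨hg0, hg1⟩ (1 / (2 * ((p : ℝ) + 1))) (by positivity)
  obtain ⟨k₀, hk₀⟩ := exists_pow_lt_of_lt_one (show 0 < min r₀ (min g (1 - g)) from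
    lt_min hr₀ (lt_min hg0 (by linarith))) (show (1 / 2 : ℝ) < 1 by norm_num)
  refine ⟨k₀, fun ρ hρ hρ1 w v o' w1 w2 w3 w4 => ?_⟩
  have e1 : ρ < r₀ := (hρ1.trans_lt hk₀).trans_le (min_le_left _ _)
  have e2 : ρ < g := (hρ1.trans_lt hk₀).trans_le ((min_le_right _ _).trans (min_le_left _ _))
  have e3 : ρ < 1 - g := (hρ1.trans_lt hk₀).trans_le ((min_le_right _ _).trans (min_le_right _ _))
  have h3 := h2 ρ hρ e1 w v o' w1 w2 w3 w4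
  have hw0 : (0 : ℝ) < w := by linarith
  have ho1 : (o' : ℝ) < 1 := by linarith
  obtain ⟨κ', hκ, e₀, he₀, hla⟩ := ((htp i).sub c2).la hpos' (hθ i) hw0 w2 w3 ho1 (by linarith)
    (1 / (2 * ((p : ℝ) + 1)) * ρ) (by positivity)
  refine ⟨κ', hκ, Bas.mono 0 (hla 0) ?_⟩
  intro J _ F' A hb V z V' z' hz hz'
  have hJ0 : (0 : ℝ) ≤ J := Nat.cast_nonneg J
  rw [add_zero] at hb
  rw [add_zero] at hb
  have h5 := hb V z V' z' hz hz' (fun ω => (F'.X ⌊Λ₁ i o' * J⌋₊ ω (k₁ i),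
      F'.X ⌊Λ₂ i o' * J⌋₊ ω (k₂ i)))
    (fun ω => (F'.X ⌊Λ₁ i v * J⌋₊ ω (k₁ i), F'.X ⌊Λ₂ i v * J⌋₊ ω (k₂ i)))
    ⟨fun ω _ => rfl, fun ω _ => rfl⟩ ⟨fun ω _ => rfl, fun ω _ => rfl⟩
  refine h5.trans ?_
  refine add_le_add le_rfl (mul_le_mul_of_nonneg_right ?_ hJ0)
  have e4 : (1 : ℝ) / (p + 1) * ρ = 1 / (2 * ((p : ℝ) + 1)) * ρ + 1 / (2 * ((p : ℝ) + 1)) * ρ := by
    field_simp
    ring
  rw [e4]
  linarith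

/-- The level of the place `i` over `B`, cut at the level of the diagonal. -/
noncomputable def lq {n : ℕ} (I : Finset (Fin n) → Fin n → ℝ → ℝ) (B : Finset (Fin n))
    (c : ℕ → Fin n) (L : ℕ → ℝ → ℝ → ℝ) (G : Set ℝ) (i : ℕ) (w : ℝ) : ℝ :=
  min (I B (c i) w) (lh (L i) G w)

/-- **No look-ahead for all pairs** as a property of a window, error `1 / (p + 1)`, for the boxes of
radius `≤ 2 ^ (-k₀)`. -/
def NlpQ {n : ℕ} (p k₀ : ℕ) (S : PCl n) (_ : List (Fin n) × Fin n → ℝ → ℝ → ℝ) (_ : ℝ)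
    (c : ℕ → Fin n) (_ : ℝ → ℝ → ℝ) (_ : ℝ → ℝ) (L _ : ℕ → ℝ → ℝ → ℝ) (_ : ℕ → Kg)
    (G : Set ℝ) (x : ℝ) : Prop :=
  ∃ I : Finset (Fin n) → Fin n → ℝ → ℝ, Ilv S I ∧
    ∀ (B : Finset (Fin n)) (i₁ i₂ : ℕ), i₁ < n → i₂ < n → ∀ ρ : ℝ, 0 < ρ → ρ ≤ (1 / 2) ^ k₀ →
      NlpAt S B (c i₁) (c i₂) (lq I B c L G i₁) (lq I B c L G i₂) x ρ (1 / (p + 1))

theorem her_nlp (n : ℕ) : HerQ (NlpQ : PropG n ℕ) := by
  intro p k₀ S S' P θ c Pt r L T κ G x hs h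
  obtain ⟨I, hI, H⟩ := h
  exact ⟨I, hI.sub hs, fun B i₁ i₂ h1 h2 ρ h3 h4 => (H B i₁ i₂ h1 h2 ρ h3 h4).sub hs⟩

/-- **(NLP)** No look-ahead for all pairs at almost every window. -/
theorem t_nlp (n : ℕ) : AePG n (NlpQ : PropG n ℕ) := by
  intro hn S P r P' Λ PB PQ H hTop hF o G hG hGs
  obtain ⟨al, g₀, s, d', e', K₁, N₁, hal, hg₀, hC⟩ := H.cl
  have hM : Bas S (fun J F A => (cnt F.p (ptr F J) A : ℝ) ≤ Real.exp ((4 * n + 1) * J)) :=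
    Bas.mono 0 hC.cnt fun J _ F A h => h J le_rfl
  obtain ⟨S₁, a1, a2, η, hη⟩ := rnum_ptr hC.ne hC.pos hM
  have hx : ∀ (τ : ℝ) (J : ℕ) (F : Fam n J) (A : F.Ω → Prop), S₁.St τ J F A → ∀ ω k,
      |F.x ω k| ≤ 2 := by
    intro τ J F A h ω k
    obtain ⟨-, -, -, -, h5, -⟩ := hC.mem τ J F A (a2 τ J F A h)
    obtain ⟨⟨h6, h7⟩, h8, -, -⟩ := h5 ω k
    have h9 := F.dir ω k
    have h10 : F.t ω ≤ 1 := by
      unfold Fam.t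
      rw [div_le_one (by positivity)]
      exact_mod_cast (F.tim ω).le
    have h11 : 0 ≤ F.t ω := by
      unfold Fam.t
      positivity
    rw [abs_le] at h9 ⊢
    unfold Fam.x
    constructor <;> nlinarith
  have hpos₁ : ∀ (τ : ℝ) (J : ℕ) (F : Fam n J) (A : F.Ω → Prop), S₁.St τ J F A → 0 < Pe F.p A :=
    fun τ J F A h => hC.pos τ J F A (a2 τ J F A h)
  obtain ⟨S₂, I, b1, b2, hI⟩ := ilv_ex a1 hpos₁ (hM.sub a2) hx hη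
  have hs2 : ∀ (τ : ℝ) (J : ℕ) (F : Fam n J) (A : F.Ω → Prop), S₂.St τ J F A → S.St τ J F A :=
    fun τ J F A h => a2 τ J F A (b2 τ J F A h)
  have hpos₂ : ∀ (τ : ℝ) (J : ℕ) (F : Fam n J) (A : F.Ω → Prop), S₂.St τ J F A → 0 < Pe F.p A :=
    fun τ J F A h => hC.pos τ J F A (hs2 τ J F A h)
  have hlow : ∀ i w, 0 ≤ w → w ≤ 1 → 0 ≤ LvL hn P P' o i w w := by
    intro i w h0 h1
    by_cases hi : i < n - 1
    · rw [LvL_lt o hi]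
      exact h0.trans ((H.cht o.2).low _ w w h0 le_rfl h1)
    · have e1 : LvL hn P P' o i w w = P w w := if_neg hi
      rw [e1]
      exact h0.trans (H.toPk.tgs.low () w w h0 le_rfl h1)
  have hmono : ∀ B i x y, x ≤ y → y ≤ 1 →
      lq I B (cc hn o.1.1) (LvL hn P P' o) G i x ≤ lq I B (cc hn o.1.1) (LvL hn P P' o) G i y :=
    fun B i x y h1 h2 => min_le_min (hI.mono _ _ _ _ h1 h2)
      (lh_mono (H.toPkT.lawL o i) (hlow i) hG h1)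
  have htp : ∀ (B : Finset (Fin n)) (i : ℕ), TwoParS S₂ (fun J F => ptr F J) (yB B) 0
      (fun _ o' => qd (cc hn o.1.1 i) (lq I B (cc hn o.1.1) (LvL hn P P' o) G i o')) 0 1 1 :=
    fun B i => two_parI hpos₂ (hM.sub hs2) hI (hmono B i) fun v => min_le_left _ _
  obtain ⟨S', c1, c2, hae⟩ := nlq_cls (ι := Finset (Fin n) × ℕ × ℕ) b1 hpos₂
    (fun w => (hη w).sub b2) (fun x => x.1) (fun x => cc hn o.1.1 x.2.1)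
    (fun x => cc hn o.1.1 x.2.2) (fun x => lq I x.1 (cc hn o.1.1) (LvL hn P P' o) G x.2.1)
    (fun x => lq I x.1 (cc hn o.1.1) (LvL hn P P' o) G x.2.2) (fun x => htp x.1 x.2.1)
    (fun x => htp x.1 x.2.2)
  refine ⟨S', c1, fun τ J F A h => hs2 τ J F A (c2 τ J F A h), ?_⟩
  filter_upwards [hae] with g h1 hg κ _ p
  obtain ⟨α, Q, c, F⟩ := H.toPk.fac hTop hF (hGs hg)
  choose k₀ hk₀ using fun x : Finset (Fin n) × ℕ × ℕ => h1 F.g0 F.g1 x p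
  refine ⟨(Finset.univ : Finset (Finset (Fin n) × Fin n × Fin n)).sup
    fun x => k₀ (x.1, (x.2.1 : ℕ), (x.2.2 : ℕ)), I, hI.sub c2, fun B i₁ i₂ h2 h3 ρ hρ hρ1 => ?_⟩
  refine hk₀ (B, i₁, i₂) ρ hρ (hρ1.trans ?_)
  refine pow_le_pow_of_le_one (by norm_num) (by norm_num) ?_
  exact Finset.le_sup (f := fun x : Finset (Fin n) × Fin n × Fin n =>
    k₀ (x.1, (x.2.1 : ℕ), (x.2.2 : ℕ))) (Finset.mem_univ (B, ⟨i₁, h2⟩, ⟨i₂, h3⟩))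

/-! ### Other levels -/

/-- **Changing the levels of a pair.** -/
theorem ch_gap2 {J : ℕ} {F : Fam m J} {q : F.Ω → ℝ} (hq : IsLaw q) (k₁ k₂ : Fin m)
    {a₁ a₂ b₁ b₂ d : ℝ} (h₁ : a₁ ≤ b₁ + d) (h₂ : a₂ ≤ b₂ + d) (hd : 0 ≤ d) {T : Type}
    (Z : F.Ω → T) :
    CH q (fun ω => (F.X ⌊a₁ * J⌋₊ ω k₁, F.X ⌊a₂ * J⌋₊ ω k₂))
      (fun ω => ((F.X ⌊b₁ * J⌋₊ ω k₁, F.X ⌊b₂ * J⌋₊ ω k₂), Z ω)) ≤ 8 + 2 * d * J := by
  have hJ : (0 : ℝ) ≤ J := Nat.cast_nonneg J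
  have hl2 : 0 < Real.log 2 := Real.log_pos one_lt_two
  have hl2' : Real.log 2 ≤ 1 := by
    have := Real.log_le_sub_one_of_pos (show (0 : ℝ) < 2 by norm_num)
    linarith
  have hl5 : Real.log 5 ≤ 3 := by
    have h1 : Real.log 5 ≤ Real.log (2 ^ 3) := Real.log_le_log (by norm_num) (by norm_num)
    rw [Real.log_pow] at h1
    push_cast at h1
    linarith
  have h3 : ((⌊d * (J : ℝ)⌋₊ + 1 : ℕ) : ℝ) * Real.log 2 ≤ d * J + 1 := by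
    have h6 := Nat.floor_le (show 0 ≤ d * (J : ℝ) by positivity)
    push_cast
    nlinarith
  have h4 := CH_subadd hq.nonneg (fun ω => F.X ⌊a₁ * J⌋₊ ω k₁) (fun ω => F.X ⌊a₂ * J⌋₊ ω k₂)
    (fun ω => ((F.X ⌊b₁ * J⌋₊ ω k₁, F.X ⌊b₂ * J⌋₊ ω k₂), Z ω))
  have h5 := ch_gap hq k₁ (fl_gap h₁ J) (fun ω => ((F.X ⌊b₁ * J⌋₊ ω k₁, F.X ⌊b₂ * J⌋₊ ω k₂), Z ω))
    (fun ω ω' _ _ hh => (Prod.ext_iff.1 (Prod.ext_iff.1 hh).1).1)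
  have h6 := ch_gap hq k₂ (fl_gap h₂ J) (fun ω => ((F.X ⌊b₁ * J⌋₊ ω k₁, F.X ⌊b₂ * J⌋₊ ω k₂), Z ω))
    (fun ω ω' _ _ hh => (Prod.ext_iff.1 (Prod.ext_iff.1 hh).1).2)
  linarith

/-- **No look-ahead at other levels**: `a₁, a₂` for the window `v`, `b₁, b₂` for the window `o`. -/
theorem NlpAt.use {B : Finset (Fin m)} {k₁ k₂ : Fin m} {Λ₁ Λ₂ : ℝ → ℝ} {x ρ e : ℝ}
    (hpos : ∀ (τ : ℝ) (J : ℕ) (F : Fam m J) (A : F.Ω → Prop), S.St τ J F A → 0 < Pe F.p A)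
    (h : NlpAt S B k₁ k₂ Λ₁ Λ₂ x ρ e) {w v o : ℚ} (h1 : x - ρ ≤ w) (h2 : w ≤ v) (h3 : v ≤ o)
    (h4 : (o : ℝ) ≤ x + ρ) {a₁ a₂ b₁ b₂ d ε : ℝ} (hd : 0 ≤ d) (hε : 0 < ε)
    (ha₁ : Λ₁ v ≤ a₁ + d) (ha₂ : Λ₂ v ≤ a₂ + d) (hb₁ : |Λ₁ o - b₁| ≤ d) (hb₂ : |Λ₂ o - b₂| ≤ d) :
    ∃ κ : ℝ, 0 < κ ∧
    Bas S (fun J F A => ∀ (V : Type) (z : F.Ω → V) (V' : Type) (z' : F.Ω → V'),
      Mx (fun J F => ptr F J) (vg (w : ℝ)) κ F A z → Mx (fun J F => ptr F J) (vg (v : ℝ)) κ F A z' →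
      CH (Pool.Agent.H49.Ent.cond F.p A True)
          (fun ω => (F.X ⌊b₁ * J⌋₊ ω k₁, F.X ⌊b₂ * J⌋₊ ω k₂))
          (fun ω => ((F.X ⌊a₁ * J⌋₊ ω k₁, F.X ⌊a₂ * J⌋₊ ω k₂),
            (z ω, (ceI B (fun _ => J) (F.x ω), F.W ω)))) ≤
        CH (Pool.Agent.H49.Ent.cond F.p A True)
          (fun ω => (F.X ⌊b₁ * J⌋₊ ω k₁, F.X ⌊b₂ * J⌋₊ ω k₂))
          (fun ω => (z' ω, (ceI B (fun _ => J) (F.x ω), F.W ω))) + (e * ρ + 6 * d + ε) * J) := by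
  obtain ⟨κ, hκ, H⟩ := h w v o h1 h2 h3 h4
  obtain ⟨J₁, hJ₁⟩ := exists_nat_ge (24 / ε)
  refine ⟨κ, hκ, Bas.mono J₁ (H.and (pos_bas hpos)) ?_⟩
  rintro J hJ F A ⟨hb, hA⟩ V z V' z' hz hz'
  have hq := isLaw_cond F.isLaw hA
  have hJ0 : (0 : ℝ) ≤ J := Nat.cast_nonneg J
  have hJ2 : 24 ≤ ε * J := by
    have h5 : (J₁ : ℝ) ≤ J := by exact_mod_cast hJ
    have h6 := hJ₁.trans h5
    rw [div_le_iff₀ hε] at h6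
    linarith
  rw [abs_le] at hb₁ hb₂
  obtain ⟨q, hqq⟩ : ∃ q, q = Pool.Agent.H49.Ent.cond F.p A True := ⟨_, rfl⟩
  rw [← hqq] at hq ⊢
  have hb' := hb V z V' z' hz hz'
  rw [← hqq] at hb'
  obtain ⟨Yb, hYb⟩ : ∃ Yb : F.Ω → ℤ × ℤ, Yb = fun ω =>
    (F.X ⌊b₁ * J⌋₊ ω k₁, F.X ⌊b₂ * J⌋₊ ω k₂) := ⟨_, rfl⟩
  obtain ⟨Ya, hYa⟩ : ∃ Ya : F.Ω → ℤ × ℤ, Ya = fun ω =>
    (F.X ⌊a₁ * J⌋₊ ω k₁, F.X ⌊a₂ * J⌋₊ ω k₂) := ⟨_, rfl⟩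
  obtain ⟨Yv, hYv⟩ : ∃ Yv : F.Ω → ℤ × ℤ, Yv = fun ω =>
    (F.X ⌊Λ₁ v * J⌋₊ ω k₁, F.X ⌊Λ₂ v * J⌋₊ ω k₂) := ⟨_, rfl⟩
  obtain ⟨Yo, hYo⟩ : ∃ Yo : F.Ω → ℤ × ℤ, Yo = fun ω =>
    (F.X ⌊Λ₁ o * J⌋₊ ω k₁, F.X ⌊Λ₂ o * J⌋₊ ω k₂) := ⟨_, rfl⟩
  obtain ⟨Z, hZ⟩ : ∃ Z : F.Ω → V × ((Fin m → ℤ) × (ℕ × F.ζ)), Z = fun ω =>
    (z ω, (ceI B (fun _ => J) (F.x ω), F.W ω)) := ⟨_, rfl⟩
  obtain ⟨Z', hZ'⟩ : ∃ Z' : F.Ω → V' × ((Fin m → ℤ) × (ℕ × F.ζ)), Z' = fun ω =>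
    (z' ω, (ceI B (fun _ => J) (F.x ω), F.W ω)) := ⟨_, rfl⟩
  have g1 : CH q Yb (fun ω => (Ya ω, Z ω)) ≤ CH q Yo (fun ω => (Ya ω, Z ω)) +
      CH q Yb (fun ω => (Yo ω, (Ya ω, Z ω))) := CH_le_add hq.nonneg _ _ _
  have g2 : CH q Yo (fun ω => (Ya ω, Z ω)) ≤ CH q Yv (fun ω => (Ya ω, Z ω)) +
      CH q Yo (fun ω => (Yv ω, (Ya ω, Z ω))) := CH_le_add hq.nonneg _ _ _
  have g3 : CH q Yo (fun ω => (Yv ω, (Ya ω, Z ω))) ≤ CH q Yo (fun ω => (Yv ω, Z ω)) := by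
    refine CH_mono_cond hq.nonneg fun ω ω' _ _ hh => ?_
    simp only [Prod.mk.injEq] at hh
    exact Prod.ext hh.1 hh.2.2
  have g4 : CH q Yo Z' ≤ CH q Yb Z' + CH q Yo (fun ω => (Yb ω, Z' ω)) := CH_le_add hq.nonneg _ _ _
  have g5 : CH q Yb (fun ω => (Yo ω, (Ya ω, Z ω))) ≤ 8 + 2 * d * J := by
    rw [hYb, hYo]
    exact ch_gap2 hq k₁ k₂ (by linarith) (by linarith) hd _
  have g6 : CH q Yv (fun ω => (Ya ω, Z ω)) ≤ 8 + 2 * d * J := by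
    rw [hYv, hYa]
    exact ch_gap2 hq k₁ k₂ ha₁ ha₂ hd _
  have g7 : CH q Yo (fun ω => (Yb ω, Z' ω)) ≤ 8 + 2 * d * J := by
    rw [hYo, hYb]
    exact ch_gap2 hq k₁ k₂ (by linarith) (by linarith) hd _
  have g8 : CH q Yo (fun ω => (Yv ω, Z ω)) ≤ CH q Yo Z' + e * ρ * J := by
    rw [hYo, hYv, hZ, hZ']
    exact hb'
  have g9 : CH q Yb (fun ω => (Ya ω, Z ω)) ≤ CH q Yb Z' + (e * ρ + 6 * d + ε) * J := by
    linarith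
  rw [hYb, hYa, hZ, hZ'] at g9
  exact g9

end Pool.V0F
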